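import Pool.Agent.Run7.h768.Main

/-!
Closures of Springer cells `C_w ∩ S_X`: for a fixed permutation `w` and matrices `X` in one nilpotent
orbit, strictly upper triangular, singularity of the closure is equivalent to solvability of an
arbitrary system of polynomial equations.
-/

namespace Pool.Agent.Results.MP_d6ff58_ag.EncodesPolynomialSystems

open Pool.Agent.Run7.h768

theorem result (q d c : ℕ) :
    ∃ (n : ℕ) (w : Equiv.Perm (Fin n))
      (X : Matrix (Fin n) (Fin n) (MvPolynomial (Fin c × (Fin q → Fin (d + 1))) ℤ)),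
      (∀ a a' : Fin c × (Fin q → Fin (d + 1)) → ℂ, ∃ g : GL (Fin n) ℂ,
        special X a' = g.1 * special X a * (g⁻¹ : GL (Fin n) ℂ).1) ∧
      ∀ a : Fin c × (Fin q → Fin (d + 1)) → ℂ,
        (∀ i j, j ≤ i → special X a i j = 0) ∧
        ((permMat w : GL (Fin n) ℂ) : Flag n) ∈ SpringerFiber (special X a) ∧
        (IsSingular (zariskiClosure (SchubertCell w ∩ SpringerFiber (special X a))) ↔
          ∃ x : Fin q → ℂ, ∀ l : Fin c, polyVal (fun α => a (l, α)) x = 0) :=
  main q d c

end Pool.Agent.Results.MP_d6ff58_ag.EncodesPolynomialSystems
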