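import Pool.Agent.Run7.h768.Murphy2
import Pool.Agent.Run7.h768.MurphyDef

/-!
Every affine algebraic set through the origin occurs, up to a product with an affine space, as the closure
of a Springer cell `C_w ∩ S_X` in the affine chart around `wB`, for a fixed permutation `w` and strictly
upper triangular matrices `X` in one nilpotent orbit, polynomial in the coefficients of the equations.
-/

namespace Pool.Agent.Results.MP_d6ff58_ag.MurphysLaw

open Pool.Agent.Run7.h768

theorem result (q d c : ℕ) (hd : 0 < d) :
    ∃ (n N : ℕ) (w : Equiv.Perm (Fin n))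
      (X : Matrix (Fin n) (Fin n) (MvPolynomial (Fin c × (Fin q → Fin (d + 1))) ℤ)),
      (∀ a a' : Fin c × (Fin q → Fin (d + 1)) → ℂ, ∃ g : GL (Fin n) ℂ,
        special X a' = g.1 * special X a * (g⁻¹ : GL (Fin n) ℂ).1) ∧
      ∀ a : Fin c × (Fin q → Fin (d + 1)) → ℂ, (∀ l, a (l, 0) = 0) →
        (∀ i j, j ≤ i → special X a i j = 0) ∧
        ((permMat w : GL (Fin n) ℂ) : Flag n) ∈ SpringerFiber (special X a) ∧
        (∀ y, ((permMat w * lowUni y : GL (Fin n) ℂ) : Flag n) ∈ cellClosure w (special X a) ↔
          ((permMat w * lowUni y : GL (Fin n) ℂ) : Flag n) ∈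
            SchubertCell w ∩ SpringerFiber (special X a)) ∧
        ChartIsProduct (cellClosure w (special X a)) (permMat w)
          {x : Fin q → ℂ | ∀ l : Fin c, polyVal (fun α => a (l, α)) x = 0} N :=
  murphy q d c hd

end Pool.Agent.Results.MP_d6ff58_ag.MurphysLaw
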